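import Pool.Agent.W785.QR.Stm

/-!
PROJECT LH (helper63): LERAY-HOPF SOLUTIONS ON R^3 WITH H^1 DATA. Full answer of MP_1c98a8_an: if the
vorticity direction of a Leray-Hopf solution on `R^3` with `H^1` data is Hoelder continuous with ANY
exponent, then the solution is regular (in particular in `L^4(L^6)`). The theorem for smooth solutions
in the whole space is `Pool.Agent.Q85.CL.Whole` (helper85). This project: local existence of strong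
solutions for `H^1` data, weak-strong uniqueness, restart.

Conventions: `E = EuclideanSpace ℝ (Fin 3)`, `𝓕⁻ f x = ∫ exp (2 π i ξ · x) f ξ dξ`; `conv`, `Phi`, `sy`,
`nl`, `phat`, `vel`, `pres` are the ones of `Pool.Agent.W785.QR.Stm` (starting files of MP_2d1ae5_an):
the velocity is `vel a t x = Re 𝓕⁻ (a · t) x`, `nl a j t ξ` is the Fourier transform of the `j`-th
component of the Leray projection of `(u·∇)u` and `phat` the one of the pressure.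
`K` always is `4 π²`, so that `exp (-4 π² t ‖ξ‖²)` is the symbol of the heat semigroup.
-/

set_option autoImplicit false

open MeasureTheory Set Filter
open scoped FourierTransform ContDiff RealInnerProductSpace ComplexConjugate ENNReal Topology

namespace Pool.Agent.Q63.LH

open Pool.Agent.W785.QR (E conv Phi sy nl phat vel pres)

/-! ### Classes of functions of time and frequency -/

/-- Rapid decay in the frequency with integrable and square integrable majorants, locally uniformly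
in time. -/
def Maj (I : Set ℝ) (f : ℝ → E → ℂ) : Prop :=
  (∀ t ∈ I, Measurable (f t)) ∧ ∀ s ∈ I, ∀ s' ∈ I, ∀ j : ℕ, ∃ M : E → ℝ, Measurable M ∧
    Integrable M ∧ Integrable (fun ξ => M ξ ^ 2) ∧
    ∀ t ∈ Icc s s', ∀ ξ, ‖f t ξ‖ * (1 + ‖ξ‖) ^ j ≤ M ξ

/-- `n` derivatives in time in the class `Maj`, the last one continuous in time. -/
def SmI (I : Set ℝ) : ℕ → (ℝ → E → ℂ) → Prop
  | 0, f => Maj I f ∧ ∀ ξ, ContinuousOn (fun t => f t ξ) I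
  | n + 1, f => Maj I f ∧ ∃ f', SmI I n f' ∧ ∀ t ∈ I, ∀ ξ, HasDerivAt (fun s => f s ξ) (f' t ξ) t

/-- JOB ALG. Adaptation of `Pool/Agent/W52/QR/{Alg,Conv}.lean` (class `Rap`, sup bounds) to the class
`Maj` (majorants). Convolution: `|conv f g t ξ| (1+‖ξ‖)^j ≤ ∫ M(η) M'(ξ-η) dη` with majorants `M, M'`
of `f, g` with the weight `(1+‖·‖)^j` (`(1+‖ξ‖) ≤ (1+‖η‖)(1+‖ξ-η‖)`); `M ∗ M'` is finite for EVERY `ξ`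
(Cauchy-Schwarz, `M, M' ∈ L²`), integrable (`Integrable.integrable_convolution` or
`integrable_prod_mul` + change of variables) and square integrable
(`(∫ M(η)M'(ξ-η)dη)² ≤ ‖M‖₁ ∫ M(η) M'(ξ-η)² dη`, integrate in `ξ`). Differentiation in time under
the integral sign with dominating function `M(η) M'(ξ-η)` (on `Icc s s'` around `t`). -/
def S_ALG : Prop := ∀ α β : ℝ,
  (∀ n f, SmI (Ioo α β) (n + 1) f → SmI (Ioo α β) n f) ∧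
  (∀ n f g, SmI (Ioo α β) n f → SmI (Ioo α β) n g → SmI (Ioo α β) n fun t ξ => f t ξ + g t ξ) ∧
  (∀ n f (σ : E → ℂ), Measurable σ → (∃ (k : ℕ) (C : ℝ), ∀ ξ, ‖σ ξ‖ ≤ C * (1 + ‖ξ‖) ^ k) →
    SmI (Ioo α β) n f → SmI (Ioo α β) n fun t ξ => σ ξ * f t ξ) ∧
  (∀ n f g, SmI (Ioo α β) n f → SmI (Ioo α β) n g → SmI (Ioo α β) n (conv f g)) ∧
  ∀ f g, Maj (Ioo α β) f → Maj (Ioo α β) g → Maj (Ioo α β) (conv f g)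

/-- JOB DPHI. Adaptation of `Pool/Agent/W52/QR/Dphi.lean`: derivatives of `Phi f`, product formula,
reality. -/
def S_DPHI : Prop := ∀ α β : ℝ,
  (∀ f f' : ℝ → E → ℂ, Maj (Ioo α β) f → Maj (Ioo α β) f' →
    (∀ t ∈ Ioo α β, ∀ ξ, HasDerivAt (fun s => f s ξ) (f' t ξ) t) →
    ∀ t ∈ Ioo α β, ∀ x, HasDerivAt (fun s => Phi f s x) (Phi f' t x) t) ∧
  (∀ f : ℝ → E → ℂ, Maj (Ioo α β) f → ∀ t ∈ Ioo α β, ∀ x, DifferentiableAt ℝ (Phi f t) x ∧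
    ∀ h : E, fderiv ℝ (Phi f t) x h
      = ∑ j, (h j : ℂ) *
        Phi (fun t ξ => 2 * (Real.pi : ℂ) * Complex.I * ((ξ j : ℝ) : ℂ) * f t ξ) t x) ∧
  (∀ f g : ℝ → E → ℂ, Maj (Ioo α β) f → Maj (Ioo α β) g → ∀ t ∈ Ioo α β, ∀ x,
    Phi (conv f g) t x = Phi f t x * Phi g t x) ∧
  ∀ f : ℝ → E → ℂ, ∀ t : ℝ, (∀ ξ, f t (-ξ) = conj (f t ξ)) → ∀ x, (Phi f t x).im = 0

/-- JOB PHI. Adaptation of `Pool/Agent/W688/QR/PhiS.lean` (uses `S_ALG` and `S_DPHI`, or prove it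
directly): smoothness in time and space. -/
def S_PHI : Prop := ∀ α β : ℝ, ∀ f : ℝ → E → ℂ, (∀ n, SmI (Ioo α β) n f) →
  ContDiffOn ℝ ∞ (Function.uncurry (Phi f)) (Ioo α β ×ˢ univ)

/-- Fourier transforms of solutions of the Navier-Stokes equations on `(α, β)`. The nonlinear term may
be absent on a set of frequencies of measure zero. -/
structure MildI (α β : ℝ) (a : Fin 3 → ℝ → E → ℂ) : Prop where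
  maj : ∀ j, Maj (Ioo α β) (a j)
  cont : ∀ j ξ, ContinuousOn (fun t => a j t ξ) (Ioo α β)
  ode : ∃ F : Set E, MeasurableSet F ∧ volume Fᶜ = 0 ∧ ∀ j, ∀ t ∈ Ioo α β, ∀ ξ,
    HasDerivAt (fun s => a j s ξ)
      (-((4 * Real.pi ^ 2 * ‖ξ‖ ^ 2 : ℝ) : ℂ) * a j t ξ - F.indicator (fun ξ => nl a j t ξ) ξ) t
  herm : ∀ j, ∀ t ∈ Ioo α β, ∀ ξ, a j t (-ξ) = conj (a j t ξ)
  divfree : ∀ t ∈ Ioo α β, ∀ ξ : E, ∑ j, ((ξ j : ℝ) : ℂ) * a j t ξ = 0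

/-- JOB BOOT. Adaptation of `Pool/Agent/W52/QR/Boot.lean` (induction on `n`; the factor
`F.indicator 1` is a bounded measurable symbol). -/
def S_BOOT : Prop := ∀ (α β : ℝ) (a : Fin 3 → ℝ → E → ℂ), MildI α β a →
  (∀ n j, SmI (Ioo α β) n (a j)) ∧ ∀ n, SmI (Ioo α β) n (phat a)

/-- Smooth solutions of the Navier-Stokes equations, viscosity one, on `I × E`. -/
structure NS (I : Set ℝ) (v : ℝ → E → E) (p : ℝ → E → ℝ) : Prop where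
  smooth_v : ContDiffOn ℝ ∞ (Function.uncurry v) (I ×ˢ univ)
  smooth_p : ContDiffOn ℝ ∞ (Function.uncurry p) (I ×ˢ univ)
  eqn : ∀ s ∈ I, ∀ x : E,
      deriv (fun τ => v τ x) s + fderiv ℝ (v s) x (v s x)
        - ∑ i : Fin 3, fderiv ℝ (fun y => fderiv ℝ (v s) y (EuclideanSpace.basisFun (Fin 3) ℝ i)) x
            (EuclideanSpace.basisFun (Fin 3) ℝ i)
        + gradient (p s) x = 0
  div : ∀ s ∈ I, ∀ x : E, LinearMap.trace ℝ E (fderiv ℝ (v s) x).toLinearMap = 0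

/-- JOB REG. Adaptation of `Pool/Agent/W688/QR/Reg.lean` (with `S_BOOT`, `S_PHI`, `S_DPHI`, `S_ALG` as
hypotheses). `Phi` does not see the null set in `MildI.ode`. -/
def S_REG : Prop := ∀ (α β : ℝ) (a : Fin 3 → ℝ → E → ℂ), MildI α β a →
  NS (Ioo α β) (vel a) (pres a)

/-- JOB PLA. Plancherel and Parseval for `𝓕⁻` on `L¹ ∩ L²` (see `Pool/Agent/W52/QR/L2.lean`:
`𝓕 f` is a.e. equal to the `L²` Fourier transform; `Lp.inner_fourier_eq` of Mathlib gives the inner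
product; `𝓕⁻ f x = 𝓕 f (-x)`). -/
def S_PLA : Prop := ∀ f g : E → ℂ, Integrable f → Integrable g → Integrable (fun ξ => ‖f ξ‖ ^ 2) →
  Integrable (fun ξ => ‖g ξ‖ ^ 2) →
  MemLp (𝓕⁻ f : E → ℂ) 2 volume ∧ ∫ x, conj ((𝓕⁻ f : E → ℂ) x) * (𝓕⁻ g : E → ℂ) x = ∫ ξ, conj (f ξ) * g ξ

/-! ### Energy, enstrophy, pressure -/

/-- The unit vectors. -/
noncomputable def ee (i : Fin 3) : E := EuclideanSpace.basisFun (Fin 3) ℝ i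

/-- The square of the Hilbert-Schmidt norm. -/
noncomputable def HS (L : E →L[ℝ] E) : ℝ := ∑ i, ‖L (ee i)‖ ^ 2

/-- JOB TRI. The energy identity on the Fourier side, at one time (here `a j : E → ℂ` are square
integrable together with `‖ξ‖ a j`, and integrable). With `c = ∑_j ∑_k ∑_l conj (a_j) sy_{jkl} conv`:
since `∑_j conj(a_j(ξ)) ξ_j = 0` only the terms `l = j` of `sy` remain, and the integral is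
`T = 2πi ∑_{j,k} ∬ ξ_k conj(a_j(ξ)) a_k(η) a_j(ξ-η) dη dξ`. Since `conj (a_j(ξ)) = a_j(-ξ)`, the
substitution `p = -ξ`, `q = ξ - η` gives `T = -2πi ∑ ∬ p_k a_j(p) a_k(-p-q) a_j(q)`, which by the
symmetry `p ↔ q` is `-πi ∑ ∬ (p_k + q_k) a_k(-p-q) a_j(p) a_j(q) = 0` by `divfree` at `-p-q`.
Absolute integrability: `‖ξ‖|a(ξ)| |a(η)| |a(ξ-η)|`, `‖ξ‖ a, a ∈ L²` and `a ∈ L¹`. -/
def S_TRI : Prop := ∀ a : Fin 3 → E → ℂ, (∀ j, Measurable (a j)) → (∀ j, Integrable (a j)) →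
  (∀ j, Integrable fun ξ => ‖a j ξ‖ ^ 2) → (∀ j, Integrable fun ξ => (‖ξ‖ * ‖a j ξ‖) ^ 2) →
  (∀ j ξ, a j (-ξ) = conj (a j ξ)) → (∀ ξ : E, ∑ j, ((ξ j : ℝ) : ℂ) * a j ξ = 0) →
  Integrable (fun ξ => ∑ j, conj (a j ξ) * nl (fun j _ => a j) j 0 ξ) ∧
    ∫ ξ, ∑ j, conj (a j ξ) * nl (fun j _ => a j) j 0 ξ = 0

/-- JOB NRM. Norms of `vel a t` in terms of `a` (Plancherel `S_PLA` and `S_DPHI`): energy, gradient,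
sup norms. `vel` is componentwise the real part of a real function (`herm`). -/
def S_NRM : Prop := ∀ (α β : ℝ) (a : Fin 3 → ℝ → E → ℂ), (∀ j, Maj (Ioo α β) (a j)) →
  (∀ j, ∀ t ∈ Ioo α β, ∀ ξ, a j t (-ξ) = conj (a j t ξ)) → ∀ t ∈ Ioo α β,
  Integrable (fun x => ‖vel a t x‖ ^ 2) ∧
  ∫ x, ‖vel a t x‖ ^ 2 = ∫ ξ, ∑ j, ‖a j t ξ‖ ^ 2 ∧
  Differentiable ℝ (vel a t) ∧ Continuous (fun x => fderiv ℝ (vel a t) x) ∧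
  Integrable (fun x => HS (fderiv ℝ (vel a t) x)) ∧
  ∫ x, HS (fderiv ℝ (vel a t) x) = 4 * Real.pi ^ 2 * ∫ ξ, ‖ξ‖ ^ 2 * ∑ j, ‖a j t ξ‖ ^ 2 ∧
  (∀ x, ‖vel a t x‖ ≤ ∑ j, ∫ ξ, ‖a j t ξ‖) ∧
  ∀ x, ‖fderiv ℝ (vel a t) x‖ ≤ 2 * Real.pi * ∑ j, ∫ ξ, ‖ξ‖ * ‖a j t ξ‖

/-- JOB EN. The energy identity: derivative of `∫ ∑ ‖a_j‖²` under the integral sign
(`Maj`, `S_BOOT` gives `Maj` for the time derivative) and `S_TRI`; then `S_NRM`. -/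
def S_EN : Prop := ∀ (α β : ℝ) (a : Fin 3 → ℝ → E → ℂ), MildI α β a → ∀ t ∈ Ioo α β,
  HasDerivAt (fun s => ∫ x, ‖vel a s x‖ ^ 2) (-2 * ∫ x, HS (fderiv ℝ (vel a t) x)) t

/-- JOB ENS. Growth of the enstrophy. `Y = ∫ HS = 4π² ∫ ‖ξ‖² |a|²` (`S_NRM`),
`Y' = -2 (4π²)² ∫ ‖ξ‖⁴ |a|² - 2 · 4π² Re ∫ ‖ξ‖² ∑ conj(a_j) nl_j`. Here `nl_j = ∑_l Π_{jl}(ξ) g_l(ξ)`,
`Π_{jl} = δ_{jl} - ξ_j ξ_l / ‖ξ‖²` a projection, `g_l = ∑_k 2πi ξ_k conv(a_k, a_l)` and by `divfree`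
`g_l(ξ) = ∑_k ∫ a_k(η) 2πi (ξ-η)_k a_l(ξ-η) dη` is the Fourier transform of `((v·∇)v)_l`; Plancherel:
`∫ |nl|² ≤ ∫ |g|² = ∫ |(v·∇)v|² ≤ B² Y` if `|v| ≤ B`. With `A = 4π² (∫ ‖ξ‖⁴|a|²)^{1/2}`:
`Y' ≤ -2 A² + 2 A B √Y ≤ B² Y / 2`. -/
def S_ENS : Prop := ∀ (α β : ℝ) (a : Fin 3 → ℝ → E → ℂ), MildI α β a → ∀ t ∈ Ioo α β,
  ∃ D : ℝ, HasDerivAt (fun s => ∫ x, HS (fderiv ℝ (vel a s) x)) D t ∧
    ∀ B : ℝ, (∀ x, ‖vel a t x‖ ≤ B) → D ≤ B ^ 2 / 2 * ∫ x, HS (fderiv ℝ (vel a t) x)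

/-- JOB PRS. Bound of the pressure in `L²` at one time. `‖phat(ξ)‖ ≤ ∑_{k,l} |conv(a_k,a_l)| ≤ 3 ∫ |a|²`
(Cauchy-Schwarz, `|ξ_k ξ_l| ≤ ‖ξ‖²`, `|a|² = ∑ |a_j|²`, so `≤ 3 X`), and by `divfree`
`∑_{k,l} ξ_k ξ_l conv(a_k,a_l)(ξ) = ∫ ((ξ-η)·a(η)) (η·a(ξ-η)) dη` is at most `∫ ‖η‖²|a(η)|² dη = Y/(4π²)`
by Cauchy-Schwarz, hence `‖ξ‖² ‖phat(ξ)‖ ≤ Y`. So `∫ |phat|² ≤ ∫ min (3 X, Y / ‖ξ‖²)² dξ
≤ C (X^{1/2} Y^{3/2})` (split at `‖ξ‖ = (Y/X)^{1/2}`; polar coordinates or the layer cake formula;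
if `X = 0` or `Y = 0` everything vanishes). Plancherel (`S_PLA`). -/
def S_PRS : Prop := ∃ C : ℝ, 0 < C ∧ ∀ (α β : ℝ) (a : Fin 3 → ℝ → E → ℂ), MildI α β a →
  ∀ t ∈ Ioo α β, MemLp (pres a t) 2 volume ∧
    (∫ x, (pres a t x) ^ 2) ^ 2 ≤ C * (∫ x, ‖vel a t x‖ ^ 2) * (∫ x, HS (fderiv ℝ (vel a t) x)) ^ 3

/-! ### Existence -/

/-- Local strong solutions on the Fourier side. The functions are defined (constant) outside of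
`[0, τ]`. -/
structure EX (τ : ℝ) (a0 : Fin 3 → E → ℂ) (a : Fin 3 → ℝ → E → ℂ) (F : Set E) (M : E → ℝ) :
    Prop where
  measF : MeasurableSet F
  nullF : volume Fᶜ = 0
  measM : Measurable M
  intM : Integrable (fun ξ => M ξ ^ 2)
  meas : ∀ j t, Measurable (a j t)
  cont : ∀ j ξ, Continuous (fun t => a j t ξ)
  zero : ∀ j t, ∀ ξ ∉ F, a j t ξ = 0
  bound : ∀ j, ∀ t ∈ Icc 0 τ, ∀ ξ, ‖a j t ξ‖ * ((1 + ‖ξ‖) * (1 + t * ‖ξ‖ ^ 2)) ≤ M ξ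
  herm : ∀ j t ξ, a j t (-ξ) = conj (a j t ξ)
  divfree : ∀ t, ∀ ξ : E, ∑ j, ((ξ j : ℝ) : ℂ) * a j t ξ = 0
  init : ∀ j, ∀ ξ ∈ F, a j 0 ξ = a0 j ξ
  duh : ∀ j, ∀ ξ ∈ F, ∀ t ∈ Icc 0 τ, a j t ξ
    = ((Real.exp (-(4 * Real.pi ^ 2 * t * ‖ξ‖ ^ 2)) : ℝ) : ℂ) * a0 j ξ
      - ∫ s in (0 : ℝ)..t, ((Real.exp (-(4 * Real.pi ^ 2 * (t - s) * ‖ξ‖ ^ 2)) : ℝ) : ℂ) * nl a j s ξ

/-- `H¹` data on the Fourier side, with square of the norm at most `K`. -/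
structure Dat (K : ℝ) (a0 : Fin 3 → E → ℂ) : Prop where
  meas : ∀ j, Measurable (a0 j)
  int : Integrable (fun ξ => (1 + ‖ξ‖) ^ 2 * ∑ j, ‖a0 j ξ‖ ^ 2)
  size : ∫ ξ, (1 + ‖ξ‖) ^ 2 * ∑ j, ‖a0 j ξ‖ ^ 2 ≤ K
  herm : ∀ j ξ, a0 j (-ξ) = conj (a0 j ξ)
  divfree : ∀ ξ : E, ∑ j, ((ξ j : ℝ) : ℂ) * a0 j ξ = 0

/-- JOB KER. The bilinear estimate. `P = F(ζ) G(ξ-ζ)`.
`‖ξ‖ ≤ ‖ζ‖ + ‖ξ-ζ‖` gives `‖ξ‖ / ((1+‖ζ‖)(1+‖ξ-ζ‖)) ≤ 1/(1+‖ζ‖) + 1/(1+‖ξ-ζ‖)`. Put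
`k(ξ) = (1+‖ξ‖) min(τ, ‖ξ‖⁻²)`. AM-GM: `k(ξ)/(1+‖ζ‖) ≤ (λ⁻¹ k(ξ)² + λ (1+‖ζ‖)⁻²)/2`. So the function is at most
`λ⁻¹ k(ξ)² ∫ F(ζ)G(ξ-ζ)dζ + (λ/2) [((1+‖·‖)⁻²F) ∗ G + F ∗ ((1+‖·‖)⁻² G)]`, with
`∫F(ζ)G(ξ-ζ)dζ ≤ ‖F‖₂‖G‖₂`, `‖((1+‖·‖)⁻² F) ∗ G‖₂ ≤ ‖(1+‖·‖)⁻²F‖₁ ‖G‖₂ ≤ ‖(1+‖·‖)⁻²‖₂ ‖F‖₂‖G‖₂`. And
`‖k²‖₂ → 0` as `τ → 0` (dominated convergence: `k² ≤ (1+‖ξ‖)² min(1, ‖ξ‖⁻²)² ∈ L²(ℝ³)`). First choose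
`λ`, then `τ`. -/
def S_KER : Prop := ∀ ε : ℝ, 0 < ε → ∃ τ : ℝ, 0 < τ ∧ τ ≤ 1 ∧ ∀ F G : E → ℝ, Measurable F →
  Measurable G → (∀ ξ, 0 ≤ F ξ) → (∀ ξ, 0 ≤ G ξ) → Integrable (fun ξ => F ξ ^ 2) →
  Integrable (fun ξ => G ξ ^ 2) →
  (∀ ξ, Integrable fun ζ => F ζ * G (ξ - ζ)) ∧
  Integrable (fun ξ => ((1 + ‖ξ‖) * min τ (1 / ‖ξ‖ ^ 2) * ‖ξ‖ *
    ∫ ζ, F ζ * G (ξ - ζ) / ((1 + ‖ζ‖) * (1 + ‖ξ - ζ‖))) ^ 2) ∧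
  ∫ ξ, ((1 + ‖ξ‖) * min τ (1 / ‖ξ‖ ^ 2) * ‖ξ‖ *
    ∫ ζ, F ζ * G (ξ - ζ) / ((1 + ‖ζ‖) * (1 + ‖ξ - ζ‖))) ^ 2
    ≤ ε ^ 2 * (∫ ξ, F ξ ^ 2) * ∫ ξ, G ξ ^ 2

/-- JOB DUH. The Duhamel integral at one frequency, `r = ‖ξ‖²`. If `t r ≤ 1`: at most `2 t g ≤ 2 min`.
If `t r > 1`: on `[0, t/2]` the exponential is at most `exp(-2π² t r)` and `(1+tr) t exp(-2π² t r) ≤ C/r`;
on `[t/2, t]` we have `1/(1+sr) ≤ 2/(1+tr)` and `∫ exp(-4π²(t-s)r) ds ≤ 1/(4π² r)`. (`1 / 0 = 0` in Lean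
for `r = 0`, so the case `r = 0` is excluded.) -/
def S_DUH : Prop := ∃ C : ℝ, 0 < C ∧ ∀ (τ r g : ℝ) (G : ℝ → ℂ), 0 < τ → 0 < r → 0 ≤ g →
  Continuous G → (∀ s ∈ Icc 0 τ, ‖G s‖ ≤ g / (1 + s * r)) → ∀ t ∈ Icc 0 τ,
  (1 + t * r) * ‖∫ s in (0 : ℝ)..t, ((Real.exp (-(4 * Real.pi ^ 2 * (t - s) * r)) : ℝ) : ℂ) * G s‖
    ≤ C * min τ (1 / r) * g

/-- JOB EX. Existence, from `S_KER` and `S_DUH`: Picard iteration `a⁰ = 0`,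
`aⁿ⁺¹ = heat(a0) - Duhamel(nl aⁿ)`, each `aⁿ_j(t,ξ)` continuous in `t` for all `ξ`, measurable in `ξ`.
Weight `w(t,ξ) = (1+‖ξ‖)(1+t‖ξ‖²)`; `Dⁿ(ξ) = sup_{t∈[0,τ]} w |aⁿ⁺¹-aⁿ|` (a sup over rational times,
measurable), `Mⁿ(ξ) = sup w |aⁿ|`. Key estimate: `(1+sρ²)(1+sσ²) ≥ (1+s‖ξ‖²)/2` for `ρ = ‖η‖`,
`σ = ‖ξ-η‖`, `ρ²+σ² ≥ ‖ξ‖²/2`, hence `|nl(s,ξ)| ≤ C ‖ξ‖ (1+s‖ξ‖²)⁻¹ ∫ M(η) M(ξ-η)/((1+‖η‖)(1+‖ξ-η‖)) dη`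
(`|sy| ≤ 4π‖ξ‖`), and by `S_DUH` and `S_KER`: `‖sup_t w |Duhamel (nl)|‖₂ ≤ C ε ‖M‖₂²` (bilinear: for the
difference `C ε (‖Mⁿ‖+‖Mⁿ⁺¹‖) ‖Dⁿ‖`). Linear part: `(1+tr) exp(-4π² t r) ≤ 2`, so `≤ 2 (1+‖ξ‖)|a0|`.
With `ε` small compared with `K^{-1/2}` all `‖Mⁿ‖₂ ≤ 4 √(3K)` and `‖Dⁿ⁺¹‖₂ ≤ ‖Dⁿ‖₂/2`;
so `∑ Dⁿ(ξ) < ∞` for a.e. `ξ` (`‖∑Dⁿ‖₂ < ∞`), uniform convergence in `t` there. Good set `F`: measurable,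
`F = -F`, of full measure, on it `∑Dⁿ < ∞` ; set `a = 0` outside. The limit satisfies Duhamel for `ξ ∈ F`
(dominated convergence with the majorant `M = sup_n Mⁿ ≤ ∑ Dⁿ`; `nl` at `ξ` does not see null sets).
`herm` and `divfree` hold for all iterates (`nl` of hermitian fields is hermitian:
`sy (-ξ) = conj (sy ξ)`; `∑_j ξ_j sy ξ j k l = 0` for `ξ ≠ 0`, and `nl = 0` at `ξ = 0`).
Alternatively a contraction in `Lp (Fin 3 → C(Icc 0 τ, ℂ)) 2` (compare `Pool/Agent/W785/QR/Ex*.lean`). -/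
def S_EX : Prop := ∃ C : ℝ, 0 < C ∧ ∀ K : ℝ, 0 < K → ∃ τ : ℝ, 0 < τ ∧ τ ≤ 1 ∧
  ∀ a0 : Fin 3 → E → ℂ, Dat K a0 → ∃ (a : Fin 3 → ℝ → E → ℂ) (F : Set E) (M : E → ℝ),
    EX τ a0 a F M ∧ ∫ ξ, M ξ ^ 2 ≤ C * K

/-- JOB MILD. Decay for positive times and the equation. By induction on `j ≥ 3`: for every `t₀ > 0` there
is `M_j ∈ L²` with `|a(t,ξ)| (1+‖ξ‖)^j ≤ M_j(ξ)` for `t ∈ [t₀, τ]`. `j = 3`: `bound`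
(`(1+‖ξ‖)² ≤ C(t₀)(1+t₀‖ξ‖²)`). Step `j → j+1` on `[2t₀, τ]`, for `ξ ∈ F`:
`a(t) = e^{-4π²(t-t₀)‖ξ‖²} a(t₀) - ∫_{t₀}^t e^{-4π²(t-s)‖ξ‖²} nl(s) ds` (from `duh`),
`|nl(s,ξ)| ≤ C‖ξ‖ (N∗N)(ξ)`, `N = M_j (1+‖·‖)^{-j}`, `(1+‖ξ‖)^j (N∗N) ≤ 2·2^j (M_j ∗ N)`, `N ∈ L¹` as
`(1+‖·‖)^{-3} ∈ L²`, so `M_j ∗ N ∈ L²`; `∫ e^{..} ds ≤ min(τ, 1/(4π²‖ξ‖²))` and
`(1+‖ξ‖) ‖ξ‖ min(τ, 1/‖ξ‖²) ≤ C`. Then `Maj` with `M_{j+2} (1+‖·‖)^{-2} ∈ L¹ ∩ L²`. The equation: `nl a j · ξ` is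
continuous in time (dominated convergence with `M(η) M(ξ-η)`), differentiate `duh` for `ξ ∈ F`; for
`ξ ∉ F` everything is zero. Also the bounds near `t = 0` by Cauchy-Schwarz:
`∫ |a_j(t)| ≤ ‖M‖₂ ‖1/((1+‖ξ‖)(1+t‖ξ‖²))‖₂ ≤ C t^{-1/4} ‖M‖₂`,
`∫ ‖ξ‖ |a_j(t)| ≤ ‖M‖₂ ‖1/(1+t‖ξ‖²)‖₂ = C t^{-3/4} ‖M‖₂` (substitution `ξ = η/√t`). -/
def S_MILD : Prop := ∃ C : ℝ, 0 < C ∧ ∀ (τ : ℝ) (a0 : Fin 3 → E → ℂ) (a : Fin 3 → ℝ → E → ℂ)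
  (F : Set E) (M : E → ℝ), 0 < τ → τ ≤ 1 → EX τ a0 a F M → MildI 0 τ a ∧
    ∀ j, ∀ t ∈ Ioo 0 τ, ∫ ξ, ‖a j t ξ‖ ≤ C * √(∫ ξ, M ξ ^ 2) * t ^ (-(1 / 4) : ℝ) ∧
      ∫ ξ, ‖ξ‖ * ‖a j t ξ‖ ≤ C * √(∫ ξ, M ξ ^ 2) * t ^ (-(3 / 4) : ℝ)

/-! ### Weak solutions -/

/-- Divergence free fields in `H¹`, with gradient `G`. -/
structure H1 (w : E → E) (G : E → E →L[ℝ] E) : Prop where
  l2 : MemLp w 2 volume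
  g2 : MemLp G 2 volume
  grad : ∀ φ : E → ℝ, ContDiff ℝ ∞ φ → HasCompactSupport φ → ∀ i,
    ∫ x, fderiv ℝ φ x (ee i) • w x = -∫ x, φ x • G x (ee i)
  div : ∀ᵐ x, ∑ i, (G x (ee i)) i = 0

/-- Divergence free test fields on `[0, T) × ℝ³`. -/
structure Test (T : ℝ) (φ : ℝ → E → E) : Prop where
  smooth : ContDiff ℝ ∞ (Function.uncurry φ)
  supp : HasCompactSupport (Function.uncurry φ)
  before : tsupport (Function.uncurry φ) ⊆ Iio T ×ˢ univ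
  div : ∀ t x, ∑ i, (fderiv ℝ (φ t) x (ee i)) i = 0

/-- Leray-Hopf weak solutions on `(0, T)` with initial value `u₀` (viscosity one, no force): bounded
energy, finite dissipation, the equations in the sense of distributions, the energy inequality for
almost every time, from the time `0` only. `G t` is the gradient of `u t`. -/
structure LerayHopf (T : ℝ) (u₀ : E → E) (u : ℝ → E → E) (G : ℝ → E → E →L[ℝ] E) : Prop where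
  meas : AEStronglyMeasurable (Function.uncurry u) (volume.restrict (Ioo 0 T ×ˢ univ))
  measG : AEStronglyMeasurable (Function.uncurry G) (volume.restrict (Ioo 0 T ×ˢ univ))
  h1 : ∀ᵐ t ∂(volume.restrict (Ioo 0 T)), H1 (u t) (G t)
  bounded : ∃ K : ℝ, ∀ᵐ t ∂(volume.restrict (Ioo 0 T)), ∫ x, ‖u t x‖ ^ 2 ≤ K
  dissip : IntegrableOn (fun t => ∫ x, HS (G t x)) (Ioo 0 T)
  eqn : ∀ φ : ℝ → E → E, Test T φ →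
    (∫ t in Ioo 0 T, ∫ x, (⟪u t x, deriv (fun s => φ s x) t⟫ + ⟪u t x, fderiv ℝ (φ t) x (u t x)⟫
      - ∑ i, ⟪G t x (ee i), fderiv ℝ (φ t) x (ee i)⟫)) + ∫ x, ⟪u₀ x, φ 0 x⟫ = 0
  energy : ∀ᵐ t ∂(volume.restrict (Ioo 0 T)),
    (∫ x, ‖u t x‖ ^ 2) + 2 * (∫ s in Ioo 0 t, ∫ x, HS (G s x)) ≤ ∫ x, ‖u₀ x‖ ^ 2

end Pool.Agent.Q63.LH
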