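import Pool.Agent.Q63.LH.Loc

/-!
PROJECT LH (helper63): windows are local in time, uniqueness of the smooth representative, glueing.
-/

set_option autoImplicit false

open MeasureTheory Set Filter
open scoped FourierTransform ContDiff RealInnerProductSpace ComplexConjugate ENNReal Topology

namespace Pool.Agent.Q63.LH

open Pool.Agent.W785.QR (E conv Phi sy nl phat vel pres)

/-- `Win` is local in time. -/
theorem win_of_local {C α β : ℝ} {v : ℝ → E → E} {p : ℝ → E → ℝ}
    (h : ∀ t ∈ Ioo α β, ∃ (α' β' : ℝ) (v' : ℝ → E → E) (p' : ℝ → E → ℝ), t ∈ Ioo α' β' ∧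
      Win C α' β' v' p' ∧ ∀ s ∈ Ioo α' β', v s = v' s ∧ p s = p' s) : Win C α β v p := by
  have hev : ∀ t ∈ Ioo α β, ∃ (α' β' : ℝ) (v' : ℝ → E → E) (p' : ℝ → E → ℝ), t ∈ Ioo α' β' ∧
      Win C α' β' v' p' ∧ v t = v' t ∧ p t = p' t ∧ (∀ᶠ s in 𝓝 t, v s = v' s ∧ p s = p' s) := by
    intro t ht
    obtain ⟨α', β', v', p', ht', hw, he⟩ := h t ht
    refine ⟨α', β', v', p', ht', hw, (he t ht').1, (he t ht').2, ?_⟩
    filter_upwards [Ioo_mem_nhds ht'.1 ht'.2] with s hs using he s hs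
  refine { smooth_v := ?_, smooth_p := ?_, eqn := ?_, div := ?_, h1 := ?_, en := ?_, ens := ?_,
           prs := ?_ }
  · rintro ⟨t, x⟩ ⟨ht, -⟩
    obtain ⟨α', β', v', p', ht', hw, -, -, he⟩ := hev t ht
    have h1 : ContDiffAt ℝ ∞ (Function.uncurry v') (t, x) :=
      (hw.smooth_v (t, x) ⟨ht', mem_univ _⟩).contDiffAt
        ((isOpen_Ioo.prod isOpen_univ).mem_nhds ⟨ht', mem_univ _⟩)
    refine (h1.congr_of_eventuallyEq ?_).contDiffWithinAt
    rw [nhds_prod_eq]
    filter_upwards [he.prod_inl (𝓝 x)] with z hz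
    show v z.1 z.2 = v' z.1 z.2
    rw [hz.1]
  · rintro ⟨t, x⟩ ⟨ht, -⟩
    obtain ⟨α', β', v', p', ht', hw, -, -, he⟩ := hev t ht
    have h1 : ContDiffAt ℝ ∞ (Function.uncurry p') (t, x) :=
      (hw.smooth_p (t, x) ⟨ht', mem_univ _⟩).contDiffAt
        ((isOpen_Ioo.prod isOpen_univ).mem_nhds ⟨ht', mem_univ _⟩)
    refine (h1.congr_of_eventuallyEq ?_).contDiffWithinAt
    rw [nhds_prod_eq]
    filter_upwards [he.prod_inl (𝓝 x)] with z hz
    show p z.1 z.2 = p' z.1 z.2
    rw [hz.2]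
  · intro t ht x
    obtain ⟨α', β', v', p', ht', hw, hv, hp, he⟩ := hev t ht
    have h1 : (fun τ => v τ x) =ᶠ[𝓝 t] fun τ => v' τ x := by
      filter_upwards [he] with s hs
      rw [hs.1]
    rw [h1.deriv_eq, hv, hp]
    exact hw.eqn t ht' x
  · intro t ht x
    obtain ⟨α', β', v', p', ht', hw, hv, hp, he⟩ := hev t ht
    rw [hv]
    exact hw.div t ht' x
  · intro t ht
    obtain ⟨α', β', v', p', ht', hw, hv, hp, he⟩ := hev t ht
    rw [hv]
    exact hw.h1 t ht'
  · intro t ht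
    obtain ⟨α', β', v', p', ht', hw, hv, hp, he⟩ := hev t ht
    rw [hv]
    refine (hw.en t ht').congr_of_eventuallyEq ?_
    filter_upwards [he] with s hs
    rw [hs.1]
  · intro t ht
    obtain ⟨α', β', v', p', ht', hw, hv, hp, he⟩ := hev t ht
    obtain ⟨D, hD, hB⟩ := hw.ens t ht'
    refine ⟨D, ?_, ?_⟩
    · refine hD.congr_of_eventuallyEq ?_
      filter_upwards [he] with s hs
      rw [hs.1]
    · rw [hv]
      exact hB
  · intro t ht
    obtain ⟨α', β', v', p', ht', hw, hv, hp, he⟩ := hev t ht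
    rw [hv, hp]
    exact hw.prs t ht'

/-- Restriction of windows. -/
theorem Win.mono {C α β α' β' : ℝ} {v : ℝ → E → E} {p : ℝ → E → ℝ} (h : Win C α β v p)
    (hs : Ioo α' β' ⊆ Ioo α β) : Win C α' β' v p :=
  win_of_local fun _ ht => ⟨α, β, v, p, hs ht, h, fun _ _ => ⟨rfl, rfl⟩⟩

/-- Translation of windows in time. -/
theorem Win.shift {C α β : ℝ} {v : ℝ → E → E} {p : ℝ → E → ℝ} (h : Win C α β v p) (s : ℝ) :
    Win C (α + s) (β + s) (fun t => v (t - s)) (fun t => p (t - s)) := by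
  have hm : ∀ {t : ℝ}, t ∈ Ioo (α + s) (β + s) → t - s ∈ Ioo α β := fun ht =>
    ⟨by linarith [ht.1], by linarith [ht.2]⟩
  have hmap : MapsTo (fun z : ℝ × E => (z.1 - s, z.2)) (Ioo (α + s) (β + s) ×ˢ univ)
      (Ioo α β ×ˢ univ) := fun z hz => ⟨hm hz.1, mem_univ _⟩
  have hsm : ContDiff ℝ ∞ (fun z : ℝ × E => (z.1 - s, z.2)) :=
    (contDiff_fst.sub contDiff_const).prodMk contDiff_snd
  refine { smooth_v := ?_, smooth_p := ?_, eqn := ?_, div := ?_, h1 := ?_, en := ?_, ens := ?_,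
           prs := ?_ }
  · exact h.smooth_v.comp hsm.contDiffOn hmap
  · exact h.smooth_p.comp hsm.contDiffOn hmap
  · intro t ht x
    have h1 : deriv (fun τ => v (τ - s) x) t = deriv (fun τ => v τ x) (t - s) := by
      exact deriv_comp_sub_const (f := fun τ => v τ x) s t
    show deriv (fun τ => v (τ - s) x) t + _ - _ + _ = 0
    rw [h1]
    exact h.eqn (t - s) (hm ht) x
  · intro t ht x
    exact h.div (t - s) (hm ht) x
  · intro t ht
    exact h.h1 (t - s) (hm ht)
  · intro t ht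
    have h1 := (h.en (t - s) (hm ht)).comp_sub_const t s
    exact h1
  · intro t ht
    obtain ⟨D, hD, hB⟩ := h.ens (t - s) (hm ht)
    exact ⟨D, hD.comp_sub_const t s, hB⟩
  · intro t ht
    exact h.prs (t - s) (hm ht)

lemma win_cont {C α β : ℝ} {v : ℝ → E → E} {p : ℝ → E → ℝ} (h : Win C α β v p) {t : ℝ}
    (ht : t ∈ Ioo α β) : Continuous (v t) := by
  have h1 := h.smooth_v.continuousOn
  have h2 : ContinuousOn (fun x : E => (t, x)) univ := by fun_prop
  have h3 := h1.comp h2 (fun x _ => ⟨ht, mem_univ _⟩)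
  exact continuousOn_univ.1 h3

lemma win_cont_p {C α β : ℝ} {v : ℝ → E → E} {p : ℝ → E → ℝ} (h : Win C α β v p) {t : ℝ}
    (ht : t ∈ Ioo α β) : ContDiff ℝ ∞ (p t) := by
  have h2 : ContDiffOn ℝ ∞ (fun x : E => (t, x)) univ := by fun_prop
  have h3 := h.smooth_p.comp h2 (fun x _ => ⟨ht, mem_univ _⟩)
  exact contDiffOn_univ.1 h3

lemma win_smooth_x {C α β : ℝ} {v : ℝ → E → E} {p : ℝ → E → ℝ} (h : Win C α β v p) {t : ℝ}
    (ht : t ∈ Ioo α β) : ContDiff ℝ ∞ (v t) := by
  have h2 : ContDiffOn ℝ ∞ (fun x : E => (t, x)) univ := by fun_prop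
  have h3 := h.smooth_v.comp h2 (fun x _ => ⟨ht, mem_univ _⟩)
  exact contDiffOn_univ.1 h3

/-- Two windows with almost everywhere equal velocities agree. -/
theorem win_unique {C C' α β : ℝ} {v v' : ℝ → E → E} {p p' : ℝ → E → ℝ} (h : Win C α β v p)
    (h' : Win C' α β v' p') (he : ∀ᵐ t ∂(volume.restrict (Ioo α β)), v t =ᵐ[volume] v' t) :
    ∀ t ∈ Ioo α β, v t = v' t ∧ p t = p' t := by
  have hv : ∀ t ∈ Ioo α β, v t = v' t := by
    have h1 : ∀ x : E, EqOn (fun t => v t x) (fun t => v' t x) (Ioo α β) := by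
      intro x
      refine Measure.eqOn_open_of_ae_eq (μ := volume) ?_ isOpen_Ioo ?_ ?_
      · rw [EventuallyEq, ae_restrict_iff' measurableSet_Ioo] at *
        filter_upwards [he] with t ht hm
        exact congrFun ((win_cont h hm).ae_eq_iff_eq volume (win_cont h' hm) |>.1 (ht hm)) x
      · exact h.smooth_v.continuousOn.comp (by fun_prop : ContinuousOn (fun t : ℝ => (t, x)) (Ioo α β))
          (fun t ht => ⟨ht, mem_univ _⟩)
      · exact h'.smooth_v.continuousOn.comp (by fun_prop : ContinuousOn (fun t : ℝ => (t, x)) (Ioo α β))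
          (fun t ht => ⟨ht, mem_univ _⟩)
    intro t ht
    funext x
    exact h1 x ht
  refine fun t ht => ⟨hv t ht, ?_⟩
  have hg : ∀ x, gradient (p t) x = gradient (p' t) x := by
    intro x
    have e1 := h.eqn t ht x
    have e2 := h'.eqn t ht x
    have e3 : (fun τ => v τ x) =ᶠ[𝓝 t] fun τ => v' τ x := by
      filter_upwards [Ioo_mem_nhds ht.1 ht.2] with s hs
      rw [hv s hs]
    rw [e3.deriv_eq, hv t ht] at e1
    have e4 := e1.trans e2.symm
    exact add_left_cancel e4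
  have hd := (win_cont_p h ht).differentiable (by simp)
  have hd' := (win_cont_p h' ht).differentiable (by simp)
  have hf : ∀ x, fderiv ℝ (fun x => p t x - p' t x) x = 0 := by
    intro x
    rw [fderiv_fun_sub (hd x) (hd' x)]
    have h2 := hg x
    unfold gradient at h2
    have h3 := (InnerProductSpace.toDual ℝ E).symm.injective h2
    rw [h3, sub_self]
  have hc : ∀ x, p t x - p' t x = p t 0 - p' t 0 := fun x =>
    is_const_of_fderiv_eq_zero (hd.sub hd') hf x 0
  have hm : MemLp (fun x => p t x - p' t x) 2 volume := ((h.prs t ht).1).sub (h'.prs t ht).1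
  have hm2 : MemLp (fun _ : E => p t 0 - p' t 0) 2 volume := by
    refine hm.congr_norm aestronglyMeasurable_const (ae_of_all _ fun x => ?_)
    rw [hc x]
  have hz : p t 0 - p' t 0 = 0 := by
    rw [memLp_const_iff (by norm_num) (by norm_num)] at hm2
    rcases hm2 with h0 | h0
    · exact h0
    · exfalso
      rw [measure_univ_of_isAddLeftInvariant] at h0
      exact lt_irrefl _ h0
  funext x
  have := hc x
  rw [hz] at this
  linarith

end Pool.Agent.Q63.LH
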