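import Pool.Agent.Q63.LH.Stm2

/-!
PROJECT LH (helper63): local strong solutions with weak-strong uniqueness, from the lemmas.
-/

set_option autoImplicit false

open MeasureTheory Set Filter
open scoped FourierTransform ContDiff RealInnerProductSpace ComplexConjugate ENNReal Topology

namespace Pool.Agent.Q63.LH

open Pool.Agent.W785.QR (E conv Phi sy nl phat vel pres)

/-- Local strong solutions for `H¹` data, with weak-strong uniqueness. -/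
def S_LOCAL : Prop := ∃ C : ℝ, 0 < C ∧ ∀ K : ℝ, 0 < K → ∃ τ C₁ : ℝ, 0 < τ ∧ τ ≤ 1 ∧ 0 < C₁ ∧
  ∀ (u₀ : E → E) (G₀ : E → E →L[ℝ] E), H1 u₀ G₀ → (∫ x, ‖u₀ x‖ ^ 2) + (∫ x, HS (G₀ x)) ≤ K →
  ∃ (v : ℝ → E → E) (p : ℝ → E → ℝ), Win C 0 τ v p ∧
    (∀ t ∈ Ioo 0 τ, IntegrableOn (fun s => ∫ x, HS (fderiv ℝ (v s) x)) (Ioo 0 t) ∧
      (∫ x, ‖v t x‖ ^ 2) + 2 * (∫ s in Ioo 0 t, ∫ x, HS (fderiv ℝ (v s) x)) = ∫ x, ‖u₀ x‖ ^ 2) ∧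
    (∀ t ∈ Ioo 0 τ, ∀ x, ‖v t x‖ ≤ C₁ * t ^ (-(1 / 4) : ℝ)) ∧
    ∀ (T : ℝ) (u : ℝ → E → E) (G : ℝ → E → E →L[ℝ] E), 0 < T → LerayHopf T u₀ u G →
      ∀ᵐ t ∂(volume.restrict (Ioo 0 (min τ T))),
        u t =ᵐ[volume] v t ∧ G t =ᵐ[volume] fun x => fderiv ℝ (v t) x

theorem local_of (hDATA : S_DATA) (hEX : S_EX) (hMILD : S_MILD) (hREG : S_REG) (hNRM : S_NRM)
    (hEN : S_EN) (hENS : S_ENS) (hPRS : S_PRS) (hFDV : S_FDV) (hEN0 : S_EN0) (hWSU : S_WSU) :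
    S_LOCAL := by
  obtain ⟨C, hC, hP⟩ := hPRS
  obtain ⟨Cx, hCx, hX⟩ := hEX
  obtain ⟨Cm, hCm, hM⟩ := hMILD
  refine ⟨C, hC, fun K hK => ?_⟩
  obtain ⟨τ, hτ, hτ1, hx⟩ := hX (2 * K) (by positivity)
  refine ⟨τ, 3 * (Cm * √(Cx * (2 * K))) + 1, hτ, hτ1, by positivity, fun u₀ G₀ h0 hK0 => ?_⟩
  obtain ⟨a0, ha0⟩ := hDATA u₀ G₀ h0
  have hi := ha0.int
  have hi2 : Integrable (fun ξ => ∑ j, ‖a0 j ξ‖ ^ 2) := by
    refine hi.mono' ?_ (ae_of_all _ fun ξ => ?_)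
    · exact (Finset.measurable_sum _ fun j _ => ((ha0.meas j).norm.pow_const 2)).aestronglyMeasurable
    · have h1 : 0 ≤ ∑ j, ‖a0 j ξ‖ ^ 2 := Finset.sum_nonneg fun j _ => by positivity
      rw [Real.norm_eq_abs, abs_of_nonneg h1]
      have h2 : 1 ≤ (1 + ‖ξ‖) ^ 2 := one_le_pow₀ (by linarith [norm_nonneg ξ])
      nlinarith
  have hi3 : Integrable (fun ξ : E => ‖ξ‖ ^ 2 * ∑ j, ‖a0 j ξ‖ ^ 2) := by
    refine hi.mono' ?_ (ae_of_all _ fun ξ => ?_)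
    · exact ((measurable_norm.pow_const 2).mul
        (Finset.measurable_sum _ fun j _ => ((ha0.meas j).norm.pow_const 2))).aestronglyMeasurable
    · have h1 : 0 ≤ ∑ j, ‖a0 j ξ‖ ^ 2 := Finset.sum_nonneg fun j _ => by positivity
      rw [Real.norm_eq_abs, abs_of_nonneg (by positivity)]
      have h2 : ‖ξ‖ ^ 2 ≤ (1 + ‖ξ‖) ^ 2 := by
        have := norm_nonneg ξ
        nlinarith
      exact mul_le_mul_of_nonneg_right h2 h1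
  have hdat : Dat (2 * K) a0 := by
    refine ⟨ha0.meas, hi, ?_, ha0.herm, ha0.divfree⟩
    have h1 : ∫ ξ, (1 + ‖ξ‖) ^ 2 * ∑ j, ‖a0 j ξ‖ ^ 2
        ≤ ∫ ξ, (2 * (∑ j, ‖a0 j ξ‖ ^ 2) + 2 * (‖ξ‖ ^ 2 * ∑ j, ‖a0 j ξ‖ ^ 2)) := by
      refine integral_mono hi ((hi2.const_mul 2).add (hi3.const_mul 2)) fun ξ => ?_
      have h1 : 0 ≤ ∑ j, ‖a0 j ξ‖ ^ 2 := Finset.sum_nonneg fun j _ => by positivity
      have h2 : (1 + ‖ξ‖) ^ 2 ≤ 2 + 2 * ‖ξ‖ ^ 2 := by nlinarith [sq_nonneg (1 - ‖ξ‖)]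
      show (1 + ‖ξ‖) ^ 2 * ∑ j, ‖a0 j ξ‖ ^ 2 ≤ _
      nlinarith
    rw [integral_add (hi2.const_mul 2) (hi3.const_mul 2), integral_const_mul,
      integral_const_mul] at h1
    have h2 := ha0.norm
    have h3 := ha0.gnorm
    have h4 : 0 ≤ ∫ ξ : E, ‖ξ‖ ^ 2 * ∑ j, ‖a0 j ξ‖ ^ 2 :=
      integral_nonneg fun ξ => by
        show 0 ≤ ‖ξ‖ ^ 2 * ∑ j, ‖a0 j ξ‖ ^ 2
        positivity
    have h5 : (1 : ℝ) ≤ 4 * Real.pi ^ 2 := by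
      nlinarith [Real.pi_gt_three]
    have h6 : ∫ ξ : E, ‖ξ‖ ^ 2 * ∑ j, ‖a0 j ξ‖ ^ 2 ≤ ∫ x, HS (G₀ x) := by
      rw [h3]
      nlinarith
    linarith
  obtain ⟨a, F, M, hEx, hMM⟩ := hx a0 hdat
  obtain ⟨hmild, hdec⟩ := hM τ a0 a F M hτ hτ1 hEx
  refine ⟨vel a, pres a, ?_, ?_, ?_, ?_⟩
  · exact { toNS := hREG 0 τ a hmild
            h1 := fun t ht => (hFDV 0 τ a hmild t ht).1
            en := hEN 0 τ a hmild
            ens := hENS 0 τ a hmild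
            prs := hP 0 τ a hmild }
  · intro t ht
    have h := hEN0 τ a0 a F M hτ hτ1 hEx t ht
    exact ⟨h.1, h.2.trans ha0.norm.symm⟩
  · intro t ht x
    have h1 := (hNRM 0 τ a hmild.maj hmild.herm t ht).2.2.2.2.2.2.1 x
    refine h1.trans ?_
    have ht0 : 0 < t ^ (-(1 / 4) : ℝ) := Real.rpow_pos_of_pos ht.1 _
    have h2 : ∀ j, ∫ ξ, ‖a j t ξ‖ ≤ Cm * √(Cx * (2 * K)) * t ^ (-(1 / 4) : ℝ) := fun j => by
      refine ((hdec j t ht).1).trans ?_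
      refine mul_le_mul_of_nonneg_right ?_ ht0.le
      exact mul_le_mul_of_nonneg_left (Real.sqrt_le_sqrt hMM) hCm.le
    calc ∑ j, ∫ ξ, ‖a j t ξ‖ ≤ ∑ _j : Fin 3, Cm * √(Cx * (2 * K)) * t ^ (-(1 / 4) : ℝ) :=
          Finset.sum_le_sum fun j _ => h2 j
      _ = 3 * (Cm * √(Cx * (2 * K))) * t ^ (-(1 / 4) : ℝ) := by
          rw [Finset.sum_const, Finset.card_univ, Fintype.card_fin]
          simp only [nsmul_eq_mul]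
          push_cast
          ring
      _ ≤ _ := mul_le_mul_of_nonneg_right (by linarith) ht0.le
  · intro T u G hT hu
    exact hWSU T τ u₀ G₀ u G a0 a F M hT hτ hτ1 h0 hu ha0 hEx

end Pool.Agent.Q63.LH
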