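import Pool.Agent.Q63.LH.Rg

/-!
PROJECT LH (helper63): if the enstrophy is bounded near the end of each interval of regularity then the
solution is smooth on `(0, T)`.
-/

set_option autoImplicit false

open MeasureTheory Set Filter
open scoped FourierTransform ContDiff RealInnerProductSpace ComplexConjugate ENNReal Topology

namespace Pool.Agent.Q63.LH

open Pool.Agent.W785.QR (E conv Phi sy nl phat vel pres)

variable {T : ℝ} {u₀ : E → E} {G₀ : E → E →L[ℝ] E} {u : ℝ → E → E} {G : ℝ → E → E →L[ℝ] E}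

lemma HS_nonneg (L : E →L[ℝ] E) : 0 ≤ HS L := Finset.sum_nonneg fun i _ => by positivity

/-- The whole interval, if the enstrophy stays bounded. The constant `C` is the one of `S_LOCAL`. -/
theorem reg_all (hLOC : S_LOCAL) (hRES : S_RES) : ∃ C : ℝ, 0 < C ∧
    ∀ (T : ℝ) (u₀ : E → E) (G₀ : E → E →L[ℝ] E) (u : ℝ → E → E) (G : ℝ → E → E →L[ℝ] E), 0 < T →
    H1 u₀ G₀ → LerayHopf T u₀ u G →
    (∀ s v p, Rg C T u₀ u G s v p → ∃ Y : ℝ, ∀ t ∈ Ico (s / 2) s,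
      ∫ x, HS (fderiv ℝ (v t) x) ≤ Y) →
    ∃ v p, Rg C T u₀ u G T v p ∧ ∃ τ C₁ : ℝ, 0 < τ ∧ τ ≤ T ∧ 0 < C₁ ∧
      ∀ t ∈ Ioo 0 τ, ∀ x, ‖v t x‖ ≤ C₁ * t ^ (-(1 / 4) : ℝ) := by
  obtain ⟨C, hC, hL⟩ := hLOC
  refine ⟨C, hC, fun T u₀ G₀ u G hT h0 hu hbd => ?_⟩
  -- the first interval
  have hfirst : ∃ τ C₁ : ℝ, 0 < τ ∧ τ ≤ T ∧ 0 < C₁ ∧ ∃ v p, Rg C T u₀ u G τ v p ∧
      ∀ t ∈ Ioo 0 τ, ∀ x, ‖v t x‖ ≤ C₁ * t ^ (-(1 / 4) : ℝ) := by
    have hK : 0 ≤ (∫ x, ‖u₀ x‖ ^ 2) + ∫ x, HS (G₀ x) :=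
      add_nonneg (integral_nonneg fun x => by positivity) (integral_nonneg fun x => HS_nonneg _)
    obtain ⟨τ, C₁, hτ, -, hC₁, hx⟩ := hL ((∫ x, ‖u₀ x‖ ^ 2) + (∫ x, HS (G₀ x)) + 1) (by linarith)
    obtain ⟨v, p, hw, hen, hb, hws⟩ := hx u₀ G₀ h0 (by linarith)
    have hws' := hws T u G hT hu
    have hm : Ioo 0 (min τ T) ⊆ Ioo 0 τ := Ioo_subset_Ioo_right (min_le_left _ _)
    refine ⟨min τ T, C₁, lt_min hτ hT, min_le_right _ _, hC₁, v, p, ⟨lt_min hτ hT,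
      min_le_right _ _, hw.mono hm, hws', fun t ht => ?_⟩, fun t ht x => hb t (hm ht) x⟩
    rw [← (hen t (hm ht)).2]
    congr 2
    refine integral_congr_ae ?_
    filter_upwards [ae_mono_set hws' (Ioo_subset_Ioo_right ht.2.le)] with r hr
    refine integral_congr_ae ?_
    filter_upwards [hr.2] with x hx
    rw [hx]
  obtain ⟨τ, C₁, hτ, hτT, hC₁, v₁, p₁, hr₁, hb₁⟩ := hfirst
  obtain ⟨S, hSd⟩ : ∃ S : Set ℝ, S = {s | ∃ v p, Rg C T u₀ u G s v p} := ⟨_, rfl⟩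
  have hSm : ∀ s, s ∈ S ↔ ∃ v p, Rg C T u₀ u G s v p := fun s => by rw [hSd]; rfl
  have hne : S.Nonempty := ⟨τ, (hSm τ).2 ⟨v₁, p₁, hr₁⟩⟩
  have hbdd : BddAbove S := ⟨T, fun s hs => by
    obtain ⟨v, p, h⟩ := (hSm s).1 hs
    exact h.le⟩
  obtain ⟨T₁, hT₁⟩ : ∃ T₁, T₁ = sSup S := ⟨_, rfl⟩
  have hlub : IsLUB S T₁ := by rw [hT₁]; exact isLUB_csSup hne hbdd
  obtain ⟨v, p, hR⟩ := Rg.sup (fun s hs => (hSm s).1 hs) hne hlub
  have hTT : T₁ = T := by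
    by_contra hne'
    have hlt : T₁ < T := lt_of_le_of_ne hR.le hne'
    obtain ⟨Y, hY⟩ := hbd T₁ v p hR
    have hX0 : 0 ≤ ∫ x, ‖u₀ x‖ ^ 2 := integral_nonneg fun x => by positivity
    have hY0 : 0 ≤ Y := (integral_nonneg fun x => HS_nonneg _).trans
      (hY (T₁ / 2) ⟨le_rfl, by linarith [hR.pos]⟩)
    obtain ⟨τ₂, C₂, hτ₂, -, -, hx⟩ := hL ((∫ x, ‖u₀ x‖ ^ 2) + Y + 1) (by linarith)
    obtain ⟨s, hs⟩ : ∃ s, s = max (T₁ / 2) (T₁ - τ₂ / 2) := ⟨_, rfl⟩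
    have hs1 : T₁ / 2 ≤ s := by rw [hs]; exact le_max_left _ _
    have hs2 : T₁ - τ₂ / 2 ≤ s := by rw [hs]; exact le_max_right _ _
    have hs3 : s < T₁ := by rw [hs]; exact max_lt (by linarith [hR.pos]) (by linarith)
    have hsI : s ∈ Ioo 0 T₁ := ⟨by linarith [hR.pos], hs3⟩
    have hens := hR.en s hsI
    have hG0 : 0 ≤ ∫ r in Ioo 0 s, ∫ x, HS (G r x) :=
      integral_nonneg fun r => integral_nonneg fun x => HS_nonneg _
    obtain ⟨v₂, p₂, hw₂, hen₂, -, hws₂⟩ := hx (v s) (fun x => fderiv ℝ (v s) x) (hR.win.h1 s hsI)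
      (by linarith [hY s ⟨hs1, hs3⟩])
    have hLH := hRES C T 0 T₁ s u₀ u G v p hT le_rfl hsI.1 hs3 hR.le hu hR.win hR.ae hens
    have hws₃ := hws₂ (T - s) _ _ (by linarith) hLH
    obtain ⟨v', p', hR'⟩ := hR.restart hu hsI hτ₂ hw₂ (fun t ht => (hen₂ t ht).2) hws₃
    have h1 : s + min τ₂ (T - s) ≤ T₁ := hlub.1 ((hSm _).2 ⟨v', p', hR'⟩)
    rcases min_cases τ₂ (T - s) with h2 | h2
    · rw [h2.1] at h1
      linarith
    · rw [h2.1] at h1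
      linarith
  rw [hTT] at hR
  refine ⟨v, p, hR, τ, C₁, hτ, hτT, hC₁, fun t ht x => ?_⟩
  rw [(hR.unique hr₁ t ht.1 (ht.2.trans_le hτT) ht.2).1]
  exact hb₁ t ht x

/-- Growth of the enstrophy on an interval on which the velocity is bounded. -/
theorem ens_bound {C s B : ℝ} {v : ℝ → E → E} {p : ℝ → E → ℝ} (hs : 0 < s) (h : Win C 0 s v p)
    (hB : ∀ t ∈ Ico (s / 2) s, ∀ x, ‖v t x‖ ≤ B) : ∃ Y : ℝ, ∀ t ∈ Ico (s / 2) s,
      ∫ x, HS (fderiv ℝ (v t) x) ≤ Y := by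
  obtain ⟨lam, hlam⟩ : ∃ lam, lam = B ^ 2 / 2 := ⟨_, rfl⟩
  have hlam0 : 0 ≤ lam := by rw [hlam]; positivity
  have hmem : ∀ t ∈ Ico (s / 2) s, t ∈ Ioo 0 s := fun t ht => ⟨by linarith [ht.1], ht.2⟩
  have hanti : AntitoneOn (fun t => (∫ x, HS (fderiv ℝ (v t) x)) * Real.exp (-lam * t))
      (Ico (s / 2) s) := by
    have hder : ∀ t ∈ Ico (s / 2) s, ∃ D', HasDerivAt
        (fun t => (∫ x, HS (fderiv ℝ (v t) x)) * Real.exp (-lam * t)) D' t ∧ D' ≤ 0 := by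
      intro t ht
      obtain ⟨D, hD, hle⟩ := h.ens t (hmem t ht)
      have h1 : HasDerivAt (fun t => Real.exp (-lam * t)) (Real.exp (-lam * t) * (-lam)) t := by
        have := ((hasDerivAt_id t).const_mul (-lam)).exp
        simpa using this
      refine ⟨_, hD.mul h1, ?_⟩
      have h2 := hle B (hB t ht)
      rw [← hlam] at h2
      have h3 := Real.exp_pos (-lam * t)
      nlinarith
    refine antitoneOn_of_deriv_nonpos (convex_Ico _ _) ?_ ?_ ?_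
    · intro t ht
      obtain ⟨D', hD', -⟩ := hder t ht
      exact hD'.continuousAt.continuousWithinAt
    · intro t ht
      obtain ⟨D', hD', -⟩ := hder t (interior_subset ht)
      exact hD'.differentiableAt.differentiableWithinAt
    · intro t ht
      obtain ⟨D', hD', h4⟩ := hder t (interior_subset ht)
      rw [hD'.deriv]
      exact h4
  have hh : s / 2 ∈ Ico (s / 2) s := ⟨le_rfl, by linarith⟩
  refine ⟨(∫ x, HS (fderiv ℝ (v (s / 2)) x)) * Real.exp (lam * s), fun t ht => ?_⟩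
  have h1 := hanti hh ht ht.1
  have h5 : 0 ≤ ∫ x, HS (fderiv ℝ (v (s / 2)) x) := integral_nonneg fun x => HS_nonneg _
  have h2 : (∫ x, HS (fderiv ℝ (v t) x)) * Real.exp (-lam * t)
      ≤ ∫ x, HS (fderiv ℝ (v (s / 2)) x) := by
    refine le_trans h1 ?_
    have h3 : Real.exp (-lam * (s / 2)) ≤ 1 := Real.exp_le_one_iff.2 (by nlinarith)
    show (∫ x, HS (fderiv ℝ (v (s / 2)) x)) * Real.exp (-lam * (s / 2)) ≤ _
    nlinarith
  have h6 : Real.exp (-lam * t) * Real.exp (lam * t) = 1 := by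
    rw [← Real.exp_add]
    simp
  have h7 : Real.exp (lam * t) ≤ Real.exp (lam * s) :=
    Real.exp_le_exp.2 (mul_le_mul_of_nonneg_left ht.2.le hlam0)
  calc ∫ x, HS (fderiv ℝ (v t) x)
      = ((∫ x, HS (fderiv ℝ (v t) x)) * Real.exp (-lam * t)) * Real.exp (lam * t) := by
        rw [mul_assoc, h6, mul_one]
    _ ≤ (∫ x, HS (fderiv ℝ (v (s / 2)) x)) * Real.exp (lam * t) :=
        mul_le_mul_of_nonneg_right h2 (Real.exp_pos _).le
    _ ≤ _ := mul_le_mul_of_nonneg_left h7 h5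

end Pool.Agent.Q63.LH
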