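import Pool.Agent.Q63.LH.Glue

/-!
PROJECT LH (helper63): the maximal interval of regularity.
-/

set_option autoImplicit false

open MeasureTheory Set Filter
open scoped FourierTransform ContDiff RealInnerProductSpace ComplexConjugate ENNReal Topology

namespace Pool.Agent.Q63.LH

open Pool.Agent.W785.QR (E conv Phi sy nl phat vel pres)

/-- The weak solution `u` is smooth on `(0, s)`, with representative `v`. -/
structure Rg (C T : ℝ) (u₀ : E → E) (u : ℝ → E → E) (G : ℝ → E → E →L[ℝ] E) (s : ℝ)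
    (v : ℝ → E → E) (p : ℝ → E → ℝ) : Prop where
  pos : 0 < s
  le : s ≤ T
  win : Win C 0 s v p
  ae : ∀ᵐ t ∂(volume.restrict (Ioo 0 s)), u t =ᵐ[volume] v t ∧
    G t =ᵐ[volume] fun x => fderiv ℝ (v t) x
  en : ∀ t ∈ Ioo 0 s, (∫ x, ‖v t x‖ ^ 2) + 2 * (∫ r in Ioo 0 t, ∫ x, HS (G r x)) = ∫ x, ‖u₀ x‖ ^ 2

variable {C T : ℝ} {u₀ : E → E} {u : ℝ → E → E} {G : ℝ → E → E →L[ℝ] E}

lemma ae_mono_set {P : ℝ → Prop} {A B : Set ℝ} (h : ∀ᵐ t ∂(volume.restrict A), P t)
    (hs : B ⊆ A) : ∀ᵐ t ∂(volume.restrict B), P t :=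
  ae_mono (Measure.restrict_mono hs le_rfl) h

/-- Two representatives agree on the common interval. -/
theorem Rg.unique {s s' : ℝ} {v v' : ℝ → E → E} {p p' : ℝ → E → ℝ} (h : Rg C T u₀ u G s v p)
    (h' : Rg C T u₀ u G s' v' p') : ∀ t, 0 < t → t < s → t < s' → v t = v' t ∧ p t = p' t := by
  intro t ht hs hs'
  have hw := h.win.mono (α' := 0) (β' := min s s') (Ioo_subset_Ioo_right (min_le_left _ _))
  have hw' := h'.win.mono (α' := 0) (β' := min s s') (Ioo_subset_Ioo_right (min_le_right _ _))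
  refine win_unique hw hw' ?_ t ⟨ht, lt_min hs hs'⟩
  have h1 := ae_mono_set h.ae (Ioo_subset_Ioo_right (min_le_left s s'))
  have h2 := ae_mono_set h'.ae (Ioo_subset_Ioo_right (min_le_right s s'))
  filter_upwards [h1, h2] with r h1 h2 using h1.1.symm.trans h2.1

/-- The supremum. -/
theorem Rg.sup {S : Set ℝ} (hS : ∀ s ∈ S, ∃ v p, Rg C T u₀ u G s v p) (hne : S.Nonempty)
    {T₁ : ℝ} (hlub : IsLUB S T₁) : ∃ v p, Rg C T u₀ u G T₁ v p := by
  have hpos : 0 < T₁ := by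
    obtain ⟨s, hs⟩ := hne
    obtain ⟨v, p, h⟩ := hS s hs
    exact h.pos.trans_le (hlub.1 hs)
  have hle : T₁ ≤ T := hlub.2 fun s hs => by
    obtain ⟨v, p, h⟩ := hS s hs
    exact h.le
  have hch : ∀ t : ℝ, ∃ (s : ℝ) (v : ℝ → E → E) (p : ℝ → E → ℝ), t ∈ Ioo 0 T₁ →
      t < s ∧ s ≤ T₁ ∧ Rg C T u₀ u G s v p := by
    intro t
    by_cases ht : t ∈ Ioo 0 T₁
    · obtain ⟨s, hs, hts⟩ := (lt_isLUB_iff hlub).1 ht.2
      obtain ⟨v, p, h⟩ := hS s hs
      exact ⟨s, v, p, fun _ => ⟨hts, hlub.1 hs, h⟩⟩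
    · exact ⟨0, fun _ _ => 0, fun _ _ => 0, fun h => absurd h ht⟩
  choose s v p hs using hch
  have hloc : ∀ t ∈ Ioo 0 T₁, ∀ r ∈ Ioo 0 (s t), v r r = v t r ∧ p r r = p t r := by
    intro t ht r hr
    obtain ⟨h1, h2, h3⟩ := hs t ht
    have hr' : r ∈ Ioo 0 T₁ := ⟨hr.1, hr.2.trans_le h2⟩
    obtain ⟨h4, h5, h6⟩ := hs r hr'
    exact h6.unique h3 r hr.1 h4 hr.2
  refine ⟨fun t => v t t, fun t => p t t, hpos, hle, ?_, ?_, ?_⟩
  · refine win_of_local fun t ht => ?_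
    obtain ⟨h1, h2, h3⟩ := hs t ht
    exact ⟨0, s t, v t, p t, ⟨ht.1, h1⟩, h3.win, fun r hr => hloc t ht r hr⟩
  · rw [ae_restrict_iff' measurableSet_Ioo, ae_iff]
    refine measure_null_of_locally_null _ fun t ht => ?_
    simp only [mem_ofPred_eq, Classical.not_imp] at ht
    obtain ⟨h1, h2, h3⟩ := hs t ht.1
    have h4 := h3.ae
    rw [ae_restrict_iff' measurableSet_Ioo, ae_iff] at h4
    refine ⟨_, inter_mem_nhdsWithin _ (Ioo_mem_nhds ht.1.1 h1), measure_mono_null ?_ h4⟩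
    rintro r ⟨hr, hr2⟩
    simp only [mem_ofPred_eq, Classical.not_imp] at hr ⊢
    refine ⟨hr2, fun hh => hr.2 ?_⟩
    rw [(hloc t ht.1 r hr2).1]
    exact hh
  · intro t ht
    obtain ⟨h1, h2, h3⟩ := hs t ht
    exact h3.en t ⟨ht.1, h1⟩

lemma ae_shift {P : ℝ → Prop} {s m : ℝ} (h : ∀ᵐ t ∂(volume.restrict (Ioo 0 m)), P (s + t)) :
    ∀ᵐ r ∂(volume.restrict (Ioo s (s + m))), P r := by
  rw [ae_restrict_iff' measurableSet_Ioo] at h ⊢
  have h1 := (measurePreserving_add_left volume (-s)).quasiMeasurePreserving.ae h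
  filter_upwards [h1] with r hr hm
  have := hr ⟨by linarith [hm.1], by linarith [hm.2]⟩
  rwa [add_neg_cancel_left] at this

lemma integral_shift {f : ℝ → ℝ} {s m : ℝ} (hm : 0 ≤ m) :
    ∫ t in Ioo 0 m, f (s + t) = ∫ t in Ioo s (s + m), f t := by
  rw [← integral_Ioc_eq_integral_Ioo, ← integral_Ioc_eq_integral_Ioo,
    ← intervalIntegral.integral_of_le hm, ← intervalIntegral.integral_of_le (by linarith),
    intervalIntegral.integral_comp_add_left, add_zero]

/-- Restart. -/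
theorem Rg.restart (hu : LerayHopf T u₀ u G) {s₁ : ℝ} {v : ℝ → E → E} {p : ℝ → E → ℝ}
    (h : Rg C T u₀ u G s₁ v p) {s τ : ℝ} (hs : s ∈ Ioo 0 s₁) (hτ : 0 < τ)
    {v₂ : ℝ → E → E} {p₂ : ℝ → E → ℝ} (hw : Win C 0 τ v₂ p₂)
    (hen : ∀ t ∈ Ioo 0 τ, (∫ x, ‖v₂ t x‖ ^ 2) + 2 * (∫ r in Ioo 0 t, ∫ x, HS (fderiv ℝ (v₂ r) x))
      = ∫ x, ‖v s x‖ ^ 2)
    (hae : ∀ᵐ t ∂(volume.restrict (Ioo 0 (min τ (T - s)))), u (s + t) =ᵐ[volume] v₂ t ∧
      G (s + t) =ᵐ[volume] fun x => fderiv ℝ (v₂ t) x) :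
    ∃ v' p', Rg C T u₀ u G (s + min τ (T - s)) v' p' := by
  have hsT : s < T := hs.2.trans_le h.le
  obtain ⟨m, hm⟩ : ∃ m, m = min τ (T - s) := ⟨_, rfl⟩
  rw [← hm] at hae ⊢
  have hm0 : 0 < m := by rw [hm]; exact lt_min hτ (by linarith)
  have hmτ : m ≤ τ := by rw [hm]; exact min_le_left _ _
  have hmT : s + m ≤ T := by
    have : m ≤ T - s := by rw [hm]; exact min_le_right _ _
    linarith
  have hae' : ∀ᵐ r ∂(volume.restrict (Ioo s (s + m))), u r =ᵐ[volume] v₂ (r - s) ∧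
      G r =ᵐ[volume] fun x => fderiv ℝ (v₂ (r - s)) x := by
    refine ae_shift (s := s) (m := m) ?_
    filter_upwards [hae] with t ht
    rwa [add_sub_cancel_left]
  have hwin₂ : Win C s (s + m) (fun t => v₂ (t - s)) (fun t => p₂ (t - s)) := by
    have := (hw.mono (α' := 0) (β' := m) (Ioo_subset_Ioo_right hmτ)).shift s
    rwa [zero_add, add_comm] at this
  have hover : ∀ r ∈ Ioo s (s + m), r < s₁ → v r = v₂ (r - s) ∧ p r = p₂ (r - s) := by
    intro r hr hr1
    have hw1 := h.win.mono (α' := s) (β' := min s₁ (s + m))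
      (Ioo_subset_Ioo hs.1.le (min_le_left _ _))
    have hw2 := hwin₂.mono (α' := s) (β' := min s₁ (s + m))
      (Ioo_subset_Ioo le_rfl (min_le_right _ _))
    refine win_unique hw1 hw2 ?_ r ⟨hr.1, lt_min hr1 hr.2⟩
    have h1 := ae_mono_set h.ae (Ioo_subset_Ioo hs.1.le (min_le_left s₁ (s + m)))
    have h2 := ae_mono_set hae' (Ioo_subset_Ioo le_rfl (min_le_right s₁ (s + m)))
    filter_upwards [h1, h2] with r h1 h2 using h1.1.symm.trans h2.1
  refine ⟨fun t => if t < s₁ then v t else v₂ (t - s),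
    fun t => if t < s₁ then p t else p₂ (t - s), by linarith [hs.1], hmT, ?_, ?_, ?_⟩
  · refine win_of_local fun t ht => ?_
    by_cases h1 : t < s₁
    · refine ⟨0, s₁, v, p, ⟨ht.1, h1⟩, h.win, fun r hr => ?_⟩
      simp only [if_pos hr.2, and_self]
    · refine ⟨s, s + m, _, _, ⟨hs.2.trans_le (not_lt.1 h1), ht.2⟩, hwin₂, fun r hr => ?_⟩
      by_cases h2 : r < s₁
      · simp only [if_pos h2]
        exact hover r hr h2
      · simp only [if_neg h2, and_self]
  · have h1 : ∀ᵐ t ∂(volume : Measure ℝ), t ∈ Ioo 0 s₁ → (u t =ᵐ[volume] v t ∧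
        G t =ᵐ[volume] fun x => fderiv ℝ (v t) x) := (ae_restrict_iff' measurableSet_Ioo).1 h.ae
    have h2 := (ae_restrict_iff' measurableSet_Ioo).1 hae'
    rw [ae_restrict_iff' measurableSet_Ioo]
    filter_upwards [h1, h2] with t h1 h2 ht
    by_cases h3 : t < s₁
    · simp only [if_pos h3]
      exact h1 ⟨ht.1, h3⟩
    · simp only [if_neg h3]
      exact h2 ⟨hs.2.trans_le (not_lt.1 h3), ht.2⟩
  · intro t ht
    by_cases h3 : t < s₁
    · simp only [if_pos h3]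
      exact h.en t ⟨ht.1, h3⟩
    · simp only [if_neg h3]
      have hst : s < t := hs.2.trans_le (not_lt.1 h3)
      have e1 := hen (t - s) ⟨by linarith, by linarith [ht.2]⟩
      have e2 := h.en s hs
      have e3 : ∫ r in Ioo 0 (t - s), ∫ x, HS (fderiv ℝ (v₂ r) x)
          = ∫ r in Ioo 0 (t - s), ∫ x, HS (G (s + r) x) := by
        refine integral_congr_ae ?_
        have h4 := ae_mono_set hae (Ioo_subset_Ioo_right (show t - s ≤ m by linarith [ht.2]))
        filter_upwards [h4] with r hr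
        refine integral_congr_ae ?_
        filter_upwards [hr.2] with x hx
        rw [hx]
      have e4 : ∫ r in Ioo 0 (t - s), ∫ x, HS (G (s + r) x) = ∫ r in Ioo s t, ∫ x, HS (G r x) := by
        have := integral_shift (f := fun r => ∫ x, HS (G r x)) (s := s) (m := t - s) (by linarith)
        rwa [add_sub_cancel] at this
      have hint := hu.dissip
      have e5 : ∫ r in Ioo 0 t, ∫ x, HS (G r x)
          = (∫ r in Ioo 0 s, ∫ x, HS (G r x)) + ∫ r in Ioo s t, ∫ x, HS (G r x) := by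
        rw [← integral_Ioc_eq_integral_Ioo, ← integral_Ioc_eq_integral_Ioo,
          ← integral_Ioc_eq_integral_Ioo, ← intervalIntegral.integral_of_le (by linarith [hs.1]),
          ← intervalIntegral.integral_of_le hs.1.le, ← intervalIntegral.integral_of_le hst.le]
        refine (intervalIntegral.integral_add_adjacent_intervals ?_ ?_).symm
        · rw [intervalIntegrable_iff_integrableOn_Ioo_of_le hs.1.le]
          exact hint.mono_set (Ioo_subset_Ioo_right hsT.le)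
        · rw [intervalIntegrable_iff_integrableOn_Ioo_of_le hst.le]
          exact hint.mono_set (Ioo_subset_Ioo hs.1.le (by linarith [ht.2]))
      rw [e5]
      rw [e3, e4] at e1
      linarith

end Pool.Agent.Q63.LH
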