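import Pool.Agent.Q63.LH.Stm

/-!
PROJECT LH (helper63), part two: data, weak-strong uniqueness, restart.
-/

set_option autoImplicit false

open MeasureTheory Set Filter
open scoped FourierTransform ContDiff RealInnerProductSpace ComplexConjugate ENNReal Topology

namespace Pool.Agent.Q63.LH

open Pool.Agent.W785.QR (E conv Phi sy nl phat vel pres)

/-- The velocity with Fourier transform `f` (one time). -/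
noncomputable def velE (f : Fin 3 → E → ℂ) (x : E) : E := WithLp.toLp 2 fun j => ((𝓕⁻ (f j) : E → ℂ) x).re

/-- `b` is the Fourier transform of the `H¹` field `w` with gradient `G` (see `H1`). -/
structure Fd (w : E → E) (G : E → E →L[ℝ] E) (b : Fin 3 → E → ℂ) : Prop where
  meas : ∀ j, Measurable (b j)
  herm : ∀ j ξ, b j (-ξ) = conj (b j ξ)
  divfree : ∀ ξ : E, ∑ j, ((ξ j : ℝ) : ℂ) * b j ξ = 0
  int : Integrable (fun ξ => (1 + ‖ξ‖) ^ 2 * ∑ j, ‖b j ξ‖ ^ 2)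
  norm : ∫ x, ‖w x‖ ^ 2 = ∫ ξ, ∑ j, ‖b j ξ‖ ^ 2
  gnorm : ∫ x, HS (G x) = 4 * Real.pi ^ 2 * ∫ ξ, ‖ξ‖ ^ 2 * ∑ j, ‖b j ξ‖ ^ 2
  pair : ∀ f : Fin 3 → E → ℂ, (∀ j, Measurable (f j)) → (∀ j, Integrable (f j)) →
    (∀ j, Integrable fun ξ => ‖f j ξ‖ ^ 2) → (∀ j ξ, f j (-ξ) = conj (f j ξ)) →
    Integrable (fun x => ⟪w x, velE f x⟫) ∧
    ∫ x, ⟪w x, velE f x⟫ = ∫ ξ, (∑ j, conj (b j ξ) * f j ξ).re
  gpair : ∀ f : Fin 3 → E → ℂ, (∀ j, Measurable (f j)) → (∀ j, Integrable fun ξ => (1 + ‖ξ‖) * ‖f j ξ‖) →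
    (∀ j, Integrable fun ξ => ((1 + ‖ξ‖) * ‖f j ξ‖) ^ 2) → (∀ j ξ, f j (-ξ) = conj (f j ξ)) →
    Integrable (fun x => ∑ i, ⟪G x (ee i), fderiv ℝ (velE f) x (ee i)⟫) ∧
    ∫ x, ∑ i, ⟪G x (ee i), fderiv ℝ (velE f) x (ee i)⟫
      = 4 * Real.pi ^ 2 * ∫ ξ, ‖ξ‖ ^ 2 * (∑ j, conj (b j ξ) * f j ξ).re

/-- JOB DATA. Fourier transform of an `H¹` field. `b_j` = measurable representative of the `L²` Fourier
transform (Mathlib `Mathlib.Analysis.Fourier.LpSpace`) of `w_j`; for `i` let `g_{ij}` be the one of `(G e_i)_j`.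
Claim `g_{ij}(ξ) = 2πi ξ_i b_j(ξ)` for a.e. `ξ`: for Schwartz `h`, `∫ g_{ij} h = ∫ (G e_i)_j 𝓕h
= -∫ w_j ∂_i 𝓕 h = ∫ w_j 𝓕(2πi x_i h) = ∫ b_j 2πi ξ_i h` (the weak gradient `H1.grad` extends from compactly supported
to Schwartz test functions by cut-off). So `‖ξ‖ b_j ∈ L²`, `gnorm`, and `∑_j ξ_j b_j = 0` a.e. from `H1.div`.
`b_j(-ξ) = conj b_j(ξ)` a.e. since `w` is real. Put `b = 0` on a null set (closed under `ξ ↦ -ξ`), so that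
`herm`, `divfree` hold everywhere. `pair`, `gpair`: Parseval in `L²` (`Lp.inner_fourier_eq`) and the fact that
for `f ∈ L¹ ∩ L²` the integral `𝓕⁻ f` is the inverse `L²` transform (see the proof of
`Pool.Agent.W52.QR.L2.plancherel`); `𝓕⁻ f_j` is real by `herm`; `∂_i 𝓕⁻ f_j = 𝓕⁻ (2πi ξ_i f_j)`. -/
def S_DATA : Prop := ∀ (w : E → E) (G : E → E →L[ℝ] E), H1 w G → ∃ b : Fin 3 → E → ℂ, Fd w G b

/-- JOB FDV. The Fourier transform of `vel a t` is `a t`: for `MildI` solutions `vel a t` is in `H¹` and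
`Fd` holds (Parseval `S_PLA`, `S_DPHI`, integration by parts for the weak gradient). -/
def S_FDV : Prop := ∀ (α β : ℝ) (a : Fin 3 → ℝ → E → ℂ), MildI α β a → ∀ t ∈ Ioo α β,
  H1 (vel a t) (fun x => fderiv ℝ (vel a t) x) ∧
    Fd (vel a t) (fun x => fderiv ℝ (vel a t) x) (fun j => a j t)

/-- JOB WF. The weak formulation with the test field `vel b`, `b` vanishing near the frequency `0`.
Stream function: `c_j = (i / (2π ‖ξ‖²)) (ξ × b)_j` (symbol bounded by `1/δ`, supported in `‖ξ‖ ≥ δ`, so `c_j` is in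
`SmI` for all `n`), `ψ = vel c`, `curl ψ = vel b` (as `ξ × (ξ × b) = -‖ξ‖² b` by `divfree`). Let `θ : ℝ → ℝ` be smooth
with compact support in `(-ε, min τ T)`, `χ` a smooth cut-off, `χ_R(x) = χ(x/R)`. Test field
`φ(t,x) = θ(t) curl (χ_R ψ(t,·))(x) = θ(t) (χ_R vel b + ∇χ_R × ψ)`: smooth with compact support
(extended by `0`), divergence free. As `R → ∞` all terms with derivatives of `χ_R` are `O(1/R)` times `L²` norms of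
`ψ, ∂_tψ, ∇ψ, vel b` (`‖ψ‖₂ < ∞`!) and sup norms of them, uniformly for `t` in the support of `θ`; dominated
convergence for the others. So for all `θ`: `∫ θ' h + ∫ θ k + θ(0) h₀ = 0` (integrals over `(0,∞)`), with
`h(t) = ∫ ⟨u(t), vel b t⟩`, `k(t) = ∫ (⟨u, ∂_t vel b⟩ + ⟨u, D(vel b) u⟩ - ∑⟨G e_i, D(vel b) e_i⟩)`, `h₀ = ∫ ⟨u₀, vel b 0⟩`. Let
`H(t) = h₀ + ∫_0^t k`. For `η` smooth with compact support in `(0, min τ T)` take `θ(t) = -χ₀(t) ∫_t^∞ η` (`χ₀` smooth,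
`= 1` for `t ≥ -ε/4`, `= 0` for `t ≤ -ε/2`): `∫ η (h - H) = 0`; so `h = H` a.e. -/
def S_WF : Prop := ∀ (T : ℝ) (u₀ : E → E) (G₀ : E → E →L[ℝ] E) (u : ℝ → E → E)
  (G : ℝ → E → E →L[ℝ] E), 0 < T → H1 u₀ G₀ → LerayHopf T u₀ u G →
  ∀ (τ ε δ : ℝ) (b : Fin 3 → ℝ → E → ℂ), 0 < τ → 0 < ε → 0 < δ →
  (∀ n j, SmI (Ioo (-ε) τ) n (b j)) → (∀ j, ∀ t ∈ Ioo (-ε) τ, ∀ ξ, b j t (-ξ) = conj (b j t ξ)) →
  (∀ t ∈ Ioo (-ε) τ, ∀ ξ : E, ∑ j, ((ξ j : ℝ) : ℂ) * b j t ξ = 0) →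
  (∀ j t ξ, ‖ξ‖ < δ → b j t ξ = 0) →
  ∀ᵐ t₁ ∂(volume.restrict (Ioo 0 (min τ T))),
    ∫ x, ⟪u t₁ x, vel b t₁ x⟫ = (∫ x, ⟪u₀ x, vel b 0 x⟫) + ∫ t in Ioo 0 t₁, ∫ x,
      (⟪u t x, deriv (fun s => vel b s x) t⟫ + ⟪u t x, fderiv ℝ (vel b t) x (u t x)⟫
        - ∑ i, ⟪G t x (ee i), fderiv ℝ (vel b t) x (ee i)⟫)

/-- JOB PAIR. Pairing of the time derivative. `w` with transform `bw` (`Fd`), `a` at one time with majorants.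
`b' = -4π²‖ξ‖² a - nl`. By `Fd.pair`/`gpair` the left side is
`-∑⟨G e_i, D(vel a) e_i⟩` integrated minus `∫ Re ∑ conj(bw_j) nl_j`; `nl_j = ∑_l Π_{jl} g_l`, `g_l` the transform of
`((v·∇)v)_l` (see `S_ENS`), `Π bw = bw` by `divfree`, so `= ∫ Re ∑ conj(bw_j) g_j = ∫ ⟨w, Dv(v)⟩` by `Fd.pair`
(`g ∈ L¹ ∩ L²`, `velE g = Dv(v)` by the product formula `S_DPHI`). -/
def S_PAIR : Prop := ∀ (α β : ℝ) (a : Fin 3 → ℝ → E → ℂ), MildI α β a → ∀ t ∈ Ioo α β,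
  ∀ (w : E → E) (Gw : E → E →L[ℝ] E) (bw : Fin 3 → E → ℂ), Fd w Gw bw →
  Integrable (fun x => ⟪w x, velE (fun j ξ => -((4 * Real.pi ^ 2 * ‖ξ‖ ^ 2 : ℝ) : ℂ) * a j t ξ - nl a j t ξ) x⟫) ∧
  ∫ x, ⟪w x, velE (fun j ξ => -((4 * Real.pi ^ 2 * ‖ξ‖ ^ 2 : ℝ) : ℂ) * a j t ξ - nl a j t ξ) x⟫
    = -(∫ x, ∑ i, ⟪Gw x (ee i), fderiv ℝ (vel a t) x (ee i)⟫)
      - ∫ x, ⟪w x, fderiv ℝ (vel a t) x (vel a t x)⟫

/-- JOB ID. The identity for the product of the weak and the strong solution. Apply `S_WF` to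
`b_j(t,ξ) = 1_{‖ξ‖ ≥ δ} a_j(t+ε',ξ)` on `(-ε', τ-ε')` (it is in `SmI` for all `n`: `S_BOOT` shifted in time,
multiplied by a bounded symbol), `∂_t vel b = vel (1_{‖ξ‖≥δ} (-4π²‖ξ‖² a - nl)(t+ε'))`. Let `δ → 0` (dominated
convergence: on compact subsets of times, in `L²` and in sup norm of the gradient, as the `L¹` and `L²` norms of
`1_{‖ξ‖<δ}(1+‖ξ‖)²(|a|+|nl|)` tend to zero), use `S_PAIR` at the times `t + ε'` with `w = u t`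
(transform from `S_DATA`), then `ε' → 0`: for fixed `t > 0` all functions of `t + ε'` converge (continuity, majorants
on a compact neighbourhood of `t`), and the integrand is dominated, with `m² = ∫ M²`, by
`C (‖∇u(t)‖ ‖∇v(t+ε')‖ + ‖u(t)‖ ‖v(t+ε')‖_∞ ‖∇v(t+ε')‖ + ‖u(t)‖² ‖∇v(t+ε')‖_∞)`, `‖∇v‖₂ ≤ C m`,
`‖v(s)‖_∞ ≤ C m s^{-1/4}`, `‖∇v(s)‖_∞ ≤ C m s^{-3/4}` (`S_MILD`, `S_NRM`). At `t = 0`: `vel b 0 = vel (a(ε'))`, by `Fd.pair`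
`∫⟨u₀, vel a ε'⟩ = ∫ Re ∑ conj(a0_j) a_j(ε') → ∫ |a0|² = ∫ |u₀|²` (dominated by `M²`; `a_j(ε',ξ) → a_j(0,ξ) = a0_j(ξ)`
a.e.). -/
def S_ID : Prop := ∀ (T τ : ℝ) (u₀ : E → E) (G₀ : E → E →L[ℝ] E) (u : ℝ → E → E)
  (G : ℝ → E → E →L[ℝ] E) (a0 : Fin 3 → E → ℂ) (a : Fin 3 → ℝ → E → ℂ) (F : Set E) (M : E → ℝ),
  0 < T → 0 < τ → τ ≤ 1 → H1 u₀ G₀ → LerayHopf T u₀ u G → Fd u₀ G₀ a0 → EX τ a0 a F M →
  ∀ᵐ t₁ ∂(volume.restrict (Ioo 0 (min τ T))),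
    ∫ x, ⟪u t₁ x, vel a t₁ x⟫ = (∫ x, ‖u₀ x‖ ^ 2) + ∫ t in Ioo 0 t₁,
      (-2 * (∫ x, ∑ i, ⟪G t x (ee i), fderiv ℝ (vel a t) x (ee i)⟫)
        + (∫ x, ⟪u t x, fderiv ℝ (vel a t) x (u t x)⟫)
        - ∫ x, ⟪u t x, fderiv ℝ (vel a t) x (vel a t x)⟫)

/-- JOB EN0. The energy identity from the time `0`: `S_EN` on `(0, τ)`, continuity at `0`
(`∫∑|a_j(t)|² → ∫∑|a0_j|²`, dominated by `M²`), `∫_0^t ∫ HS ≤ C t ∫ M²`. -/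
def S_EN0 : Prop := ∀ (τ : ℝ) (a0 : Fin 3 → E → ℂ) (a : Fin 3 → ℝ → E → ℂ) (F : Set E) (M : E → ℝ),
  0 < τ → τ ≤ 1 → EX τ a0 a F M → ∀ t ∈ Ioo 0 τ,
    IntegrableOn (fun s => ∫ x, HS (fderiv ℝ (vel a s) x)) (Ioo 0 t) ∧
    (∫ x, ‖vel a t x‖ ^ 2) + 2 * (∫ s in Ioo 0 t, ∫ x, HS (fderiv ℝ (vel a s) x))
      = ∫ ξ, ∑ j, ‖a0 j ξ‖ ^ 2

/-- JOB WSU. Weak-strong uniqueness, from `S_ID`, `S_EN0`, `S_NRM`, `S_MILD`. `v = vel a`, `w = u - v`. For a.e. `t₁`: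
`∫|w|² = ∫|u|² + ∫|v|² - 2∫⟨u,v⟩ ≤ -2 ∫_0^{t₁} ∫ HS(G - Dv) - 2 ∫_0^{t₁} ∫ ⟨u, Dv(w)⟩` (energy inequality, `S_EN0`, `S_ID`,
`∫|u₀|² = ∫∑|a0|²`), and `∫⟨v, Dv(w)⟩ = ∫ w·∇(|v|²/2) = 0` (`w(t)` is divergence free in `H¹`, `|v|²` smooth,
integrable with integrable square of the gradient: cut-off), so `∫⟨u,Dv(w)⟩ = ∫⟨w,Dv(w)⟩`, at most
`‖Dv(t)‖_∞ ∫|w|² ≤ C t^{-3/4} ∫|w|²`. Gronwall for the bounded measurable function `g(t) = ∫|w(t)|²`: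
`g(t₁) ≤ ∫_0^{t₁} k g` for a.e. `t₁`, `k = 2C t^{-3/4}` integrable, so `g = 0` a.e. Then also `G t = Dv t` a.e. (both are
the weak gradient of `u t = v t`). -/
def S_WSU : Prop := ∀ (T τ : ℝ) (u₀ : E → E) (G₀ : E → E →L[ℝ] E) (u : ℝ → E → E)
  (G : ℝ → E → E →L[ℝ] E) (a0 : Fin 3 → E → ℂ) (a : Fin 3 → ℝ → E → ℂ) (F : Set E) (M : E → ℝ),
  0 < T → 0 < τ → τ ≤ 1 → H1 u₀ G₀ → LerayHopf T u₀ u G → Fd u₀ G₀ a0 → EX τ a0 a F M →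
  ∀ᵐ t ∂(volume.restrict (Ioo 0 (min τ T))),
    u t =ᵐ[volume] vel a t ∧ G t =ᵐ[volume] fun x => fderiv ℝ (vel a t) x

/-- Windows: smooth solutions on `(α, β)` with the differential form of the energy identity, of the
growth of the enstrophy and with the bound of the pressure. -/
structure Win (C α β : ℝ) (v : ℝ → E → E) (p : ℝ → E → ℝ) : Prop extends NS (Ioo α β) v p where
  h1 : ∀ t ∈ Ioo α β, H1 (v t) (fun x => fderiv ℝ (v t) x)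
  en : ∀ t ∈ Ioo α β, HasDerivAt (fun s => ∫ x, ‖v s x‖ ^ 2)
    (-2 * ∫ x, HS (fderiv ℝ (v t) x)) t
  ens : ∀ t ∈ Ioo α β, ∃ D : ℝ, HasDerivAt (fun s => ∫ x, HS (fderiv ℝ (v s) x)) D t ∧
    ∀ B : ℝ, (∀ x, ‖v t x‖ ≤ B) → D ≤ B ^ 2 / 2 * ∫ x, HS (fderiv ℝ (v t) x)
  prs : ∀ t ∈ Ioo α β, MemLp (p t) 2 volume ∧
    (∫ x, (p t x) ^ 2) ^ 2 ≤ C * (∫ x, ‖v t x‖ ^ 2) * (∫ x, HS (fderiv ℝ (v t) x)) ^ 3

/-- JOB RES. Restart at the time `s` of a window. `v` is the smooth representative of `u` on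
`(α, β) ⊆ (0, T)`. Energy: subtract the identity at the time `s` from the energy inequality at `t`. Equation:
for a test field `φ` on `[0, T-s)` use `φ̃(t,x) = θ_ε(t) φ(t-s,x)`, `θ_ε` smooth, `0` for `t ≤ s`, `1` for `t ≥ s+ε`,
`θ_ε' ≥ 0`; `φ̃(0,·) = 0`. As `ε → 0` the term `∫ θ_ε'(t) ∫⟨u(t), φ(t-s)⟩ dt → ∫⟨v(s), φ(0)⟩`, since for a.e. `t` near `s`
`u t = v t` a.e. and `t ↦ ∫⟨v(t), φ(t-s)⟩` is continuous at `s` (`φ` has compact support, `v` is continuous). -/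
def S_RES : Prop := ∀ (C T α β s : ℝ) (u₀ : E → E) (u : ℝ → E → E) (G : ℝ → E → E →L[ℝ] E)
  (v : ℝ → E → E) (p : ℝ → E → ℝ), 0 < T → 0 ≤ α → α < s → s < β → β ≤ T →
  LerayHopf T u₀ u G → Win C α β v p →
  (∀ᵐ t ∂(volume.restrict (Ioo α β)), u t =ᵐ[volume] v t ∧ G t =ᵐ[volume] fun x => fderiv ℝ (v t) x) →
  (∫ x, ‖v s x‖ ^ 2) + 2 * (∫ t in Ioo 0 s, ∫ x, HS (G t x)) = ∫ x, ‖u₀ x‖ ^ 2 →
  LerayHopf (T - s) (v s) (fun t => u (s + t)) (fun t => G (s + t))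

end Pool.Agent.Q63.LH
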